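import Pool.Agent.P.MP_d1604f_al.Tower

namespace Pool.Agent.Results.MP_d1604f_al.PerfectionCounterexample

open Pool.Agent.P.MP_d1604f_al

lemma perfect_lift {R : Type} [CommRing R] (p : ℕ) [Fact p.Prime] [CharP R p] {ι : Type}
    [Finite ι] (x : ι → PerfectClosure R p) : ∃ (n : ℕ) (r : ι → R),
      ∀ i, iterateFrobeniusEquiv (PerfectClosure R p) p n (x i) = PerfectClosure.of R p (r i) := by
  have h : ∀ i, ∃ (n : ℕ) (r : R), x i ^ p ^ n = PerfectClosure.of R p r := by
    intro i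
    obtain ⟨⟨n, r⟩, h⟩ := PerfectClosure.mk_surjective R p (x i)
    refine ⟨n, r, ?_⟩
    rw [← h, ← PerfectClosure.iterate_frobenius_mk R p n r, ← coe_iterateFrobenius,
      iterateFrobenius_def]
  choose n r hr using h
  obtain ⟨N, hN⟩ := (Set.finite_range n).bddAbove
  refine ⟨N, fun i => r i ^ p ^ (N - n i), fun i => ?_⟩
  have : n i ≤ N := hN ⟨i, rfl⟩
  rw [iterateFrobeniusEquiv_def, map_pow, ← hr i, ← pow_mul, ← pow_add, Nat.add_sub_cancel' this]

lemma edr_perfect {R : Type} [CommRing R] [IsReduced R] (p : ℕ) [Fact p.Prime] [CharP R p]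
    (hH : Herm R) (hK : ∀ a b c α β γ : R, α * a + β * b + γ * c = 1 →
      ∃ e : ℕ, Kap (a ^ p ^ e) (b ^ p ^ e) (c ^ p ^ e)) :
    IsElementaryDivisorRing (PerfectClosure R p) := by
  have hinj : Function.Injective (PerfectClosure.of R p) := fun x y h => by
    simpa using (PerfectClosure.eq_iff R p (0, x) (0, y)).1 h
  apply edr_of_herm_kap
  · intro x y
    obtain ⟨n, r, hr⟩ := perfect_lift p ![x, y]
    obtain ⟨x', y', d, u, v, h1, h2, h3⟩ := hH (r 0) (r 1)
    let ψ : R →+* PerfectClosure R p :=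
      (iterateFrobeniusEquiv (PerfectClosure R p) p n).symm.toRingHom.comp (PerfectClosure.of R p)
    have hψ : ∀ i, ψ (r i) = ![x, y] i := fun i => by
      simp only [ψ, RingHom.comp_apply, ← hr i, RingEquiv.toRingHom_eq_coe, RingHom.coe_coe,
        RingEquiv.symm_apply_apply]
    refine ⟨ψ x', ψ y', ψ d, ψ u, ψ v, ?_, ?_, ?_⟩
    · rw [← map_mul, ← h1, hψ]; rfl
    · rw [← map_mul, ← h2, hψ]; rfl
    · rw [← map_mul, ← map_mul, ← map_add, h3, map_one]
  · intro a b c α β γ h
    obtain ⟨n, r, hr⟩ := perfect_lift p ![a, b, c, α, β, γ]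
    have h1 : r 3 * r 0 + r 4 * r 1 + r 5 * r 2 = 1 := by
      apply hinj
      simp only [map_add, map_mul, ← hr, map_one]
      rw [← map_mul, ← map_mul, ← map_mul, ← map_add, ← map_add]
      exact (congrArg _ h).trans (map_one _)
    obtain ⟨e, P, Q, s, t, h2⟩ := hK _ _ _ _ _ _ h1
    let ψ : R →+* PerfectClosure R p :=
      (iterateFrobeniusEquiv (PerfectClosure R p) p e).symm.toRingHom.comp
        ((iterateFrobeniusEquiv (PerfectClosure R p) p n).symm.toRingHom.comp
          (PerfectClosure.of R p))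
    have hψ : ∀ i, ψ (r i ^ p ^ e) = ![a, b, c, α, β, γ] i := fun i => by
      simp only [ψ, RingHom.comp_apply, map_pow (PerfectClosure.of R p), ← hr i,
        RingEquiv.toRingHom_eq_coe, RingHom.coe_coe,
        map_pow (iterateFrobeniusEquiv (PerfectClosure R p) p n).symm, RingEquiv.symm_apply_apply]
      rw [← iterateFrobeniusEquiv_def, RingEquiv.symm_apply_apply]
    refine ⟨ψ P, ψ Q, ψ s, ψ t, ?_⟩
    have h3 := congrArg ψ h2
    simp only [map_add, map_mul, map_one, hψ] at h3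
    exact h3

/-- For every prime `p` there is a reduced Hermite ring of characteristic `p` whose perfection is
an elementary divisor ring but which is not an elementary divisor ring. -/
theorem result (p : ℕ) [Fact p.Prime] :
    ∃ (R : Type) (_ : CommRing R) (_ : CharP R p), IsReduced R ∧ IsHermiteRing R ∧
      IsElementaryDivisorRing (PerfectClosure R p) ∧ ¬ IsElementaryDivisorRing R := by
  obtain ⟨I, hrad, hE, hH, hK, hN⟩ := exists_tower p
  have hI : I ≠ ⊤ := fun h => hN 0 0 0 0 (h ▸ Submodule.mem_top)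
  have : Nontrivial (Ap p ⧸ I) := Ideal.Quotient.nontrivial_iff.2 hI
  have hchar : CharP (Ap p ⧸ I) p := CharP.of_ringHom_of_ne_zero
    ((Ideal.Quotient.mk I).comp (MvPolynomial.C : Kp p →+* Ap p)) p (Fact.out : p.Prime).ne_zero
  have hred : IsReduced (Ap p ⧸ I) := (Ideal.isRadical_iff_quotient_reduced I).1 hrad
  have hz : ∀ f : Ap p, f ∈ I → Ideal.Quotient.mk I f = 0 := fun f hf =>
    Ideal.Quotient.eq_zero_iff_mem.2 hf
  have hHerm : Herm (Ap p ⧸ I) := by
    intro x y
    obtain ⟨x, rfl⟩ := Ideal.Quotient.mk_surjective x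
    obtain ⟨y, rfl⟩ := Ideal.Quotient.mk_surjective y
    obtain ⟨x', y', d, u, v, h1, h2, h3⟩ := hH x y
    have e1 := hz _ h1
    have e2 := hz _ h2
    have e3 := hz _ h3
    simp only [map_sub, map_add, map_mul, map_one, sub_eq_zero] at e1 e2 e3
    exact ⟨_, _, _, _, _, e1, e2, e3⟩
  refine ⟨Ap p ⧸ I, inferInstance, hchar, hred, hHerm.isHermiteRing, edr_perfect p hHerm ?_, ?_⟩
  · intro a b c α β γ h
    obtain ⟨a, rfl⟩ := Ideal.Quotient.mk_surjective a
    obtain ⟨b, rfl⟩ := Ideal.Quotient.mk_surjective b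
    obtain ⟨c, rfl⟩ := Ideal.Quotient.mk_surjective c
    obtain ⟨α, rfl⟩ := Ideal.Quotient.mk_surjective α
    obtain ⟨β, rfl⟩ := Ideal.Quotient.mk_surjective β
    obtain ⟨γ, rfl⟩ := Ideal.Quotient.mk_surjective γ
    obtain ⟨e, P, Q, s, t, h1⟩ := hK a b c α β γ (Ideal.Quotient.eq_zero_iff_mem.1 (by
      simp only [map_sub, map_add, map_mul, map_one, h, sub_self]))
    have e1 := hz _ h1
    simp only [map_sub, map_add, map_mul, map_one, map_pow, sub_eq_zero] at e1
    exact ⟨e, _, _, _, _, e1⟩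
  · intro h
    have hp := (Fact.out : p.Prime)
    have e1 := hz _ (hE (Or.inr rfl))
    simp only [map_sub, map_add, map_pow] at e1
    have hw : Ideal.Quotient.mk I (w0 p) *
        Ideal.Quotient.mk I (MvPolynomial.C (RatFunc.X : Kp p)⁻¹) = 1 := by
      rw [← map_mul, w0, ← map_mul, mul_inv_cancel₀ RatFunc.X_ne_zero, map_one, map_one]
    set ω := Ideal.Quotient.mk I (MvPolynomial.C (RatFunc.X : Kp p)⁻¹)
    obtain ⟨P, Q, s, t, h1⟩ := kap_of_edr h (Ideal.Quotient.mk I (a0 p))
      (Ideal.Quotient.mk I (b0 p)) (Ideal.Quotient.mk I (c0 p)) (-ω)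
      (ω * Ideal.Quotient.mk I (b0 p) ^ (p - 1)) (-ω) (by
        rw [mul_assoc, ← pow_succ, Nat.sub_add_cancel hp.one_lt.le]
        linear_combination hw - ω * e1)
    obtain ⟨P, rfl⟩ := Ideal.Quotient.mk_surjective P
    obtain ⟨Q, rfl⟩ := Ideal.Quotient.mk_surjective Q
    obtain ⟨s, rfl⟩ := Ideal.Quotient.mk_surjective s
    obtain ⟨t, rfl⟩ := Ideal.Quotient.mk_surjective t
    exact hN P Q s t (Ideal.Quotient.eq_zero_iff_mem.1 (by
      simp only [map_sub, map_add, map_mul, map_one, h1, sub_self]))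

end Pool.Agent.Results.MP_d1604f_al.PerfectionCounterexample
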